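import Pool.Agent.helper95.T5.SpecN
import Pool.Agent.helper9.LT.WC

set_option autoImplicit false

namespace Pool.Agent.T5

open Finset NumberField Pool.Agent.helper3.FT Pool.Agent.helper47.RA

/-- the sum over the box with linear terms -/
noncomputable def WEY_S (m₀ g₀ : ℤ) (M G : ℕ) (a b c x y : ℝ) : ℂ :=
  ∑ m ∈ Ico m₀ (m₀ + M), ∑ g ∈ Ico g₀ (g₀ + G),
    e (a * m ^ 2 + b * m * g + c * g ^ 2 + x * m + y * g)

/-- reindexing of a double sum by the difference -/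
theorem WEY_reindex (m₀ : ℤ) (M : ℕ) (φ : ℤ → ℤ → ℂ) :
    ∑ m ∈ Ico m₀ (m₀ + M), ∑ m' ∈ Ico m₀ (m₀ + M), φ m m' =
      ∑ u ∈ Icc (-(2 * M : ℤ)) (2 * M), ∑ m' ∈ Icc (max m₀ (m₀ - u)) (min (m₀ + M - 1) (m₀ + M - 1 - u)),
        φ (m' + u) m' := by
  rw [← sum_product', sum_sigma']
  refine sum_bij' (fun p _ => ⟨p.1 - p.2, p.2⟩) (fun q _ => (q.2 + q.1, q.2)) ?_ ?_ ?_ ?_ ?_
  · rintro ⟨m, m'⟩ h
    simp only [mem_product, mem_Ico] at h
    simp only [mem_sigma, mem_Icc, max_le_iff, le_min_iff]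
    omega
  · rintro ⟨u, m'⟩ h
    simp only [mem_sigma, mem_Icc, max_le_iff, le_min_iff] at h
    simp only [mem_product, mem_Ico]
    omega
  · rintro ⟨m, m'⟩ _
    simp
  · rintro ⟨u, m'⟩ _
    simp
  · rintro ⟨m, m'⟩ _
    simp

theorem WEY_weyl (m₀ g₀ : ℤ) (M G : ℕ) (a b c x y : ℝ) : ‖WEY_S m₀ g₀ M G a b c x y‖ ^ 2 ≤
    ∑ u ∈ Icc (-(2 * M : ℤ)) (2 * M), ∑ v ∈ Icc (-(2 * G : ℤ)) (2 * G),
      Pool.Agent.helper3.FT.wt M (2 * a * u + b * v) * Pool.Agent.helper3.FT.wt G (b * u + 2 * c * v) := by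
  have h0 : ‖WEY_S m₀ g₀ M G a b c x y‖ ^ 2 =
      ‖WEY_S m₀ g₀ M G a b c x y * (starRingEnd ℂ) (WEY_S m₀ g₀ M G a b c x y)‖ := by
    rw [norm_mul, RCLike.norm_conj, sq]
  have h1 : WEY_S m₀ g₀ M G a b c x y * (starRingEnd ℂ) (WEY_S m₀ g₀ M G a b c x y) =
      ∑ m ∈ Ico m₀ (m₀ + M), ∑ m' ∈ Ico m₀ (m₀ + M), ∑ g ∈ Ico g₀ (g₀ + G), ∑ g' ∈ Ico g₀ (g₀ + G),
        e ((a * m ^ 2 + b * m * g + c * g ^ 2 + x * m + y * g) -
          (a * m' ^ 2 + b * m' * g' + c * g' ^ 2 + x * m' + y * g')) := by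
    unfold WEY_S
    rw [map_sum, sum_mul_sum]
    refine sum_congr rfl fun m _ => sum_congr rfl fun m' _ => ?_
    rw [map_sum, sum_mul_sum]
    refine sum_congr rfl fun g _ => sum_congr rfl fun g' _ => ?_
    rw [E1_conj_e, ← E1_e_add]
    congr 1
  have h2 : ∑ m ∈ Ico m₀ (m₀ + M), ∑ m' ∈ Ico m₀ (m₀ + M), ∑ g ∈ Ico g₀ (g₀ + G), ∑ g' ∈ Ico g₀ (g₀ + G),
        e ((a * m ^ 2 + b * m * g + c * g ^ 2 + x * m + y * g) -
          (a * m' ^ 2 + b * m' * g' + c * g' ^ 2 + x * m' + y * g')) =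
      ∑ u ∈ Icc (-(2 * M : ℤ)) (2 * M), ∑ v ∈ Icc (-(2 * G : ℤ)) (2 * G),
        e (a * u ^ 2 + b * u * v + c * v ^ 2 + x * u + y * v) *
        ((∑ m' ∈ Icc (max m₀ (m₀ - u)) (min (m₀ + M - 1) (m₀ + M - 1 - u)), e ((2 * a * u + b * v) * m')) *
        (∑ g' ∈ Icc (max g₀ (g₀ - v)) (min (g₀ + G - 1) (g₀ + G - 1 - v)), e ((b * u + 2 * c * v) * g'))) := by
    rw [WEY_reindex m₀ M (fun m m' => ∑ g ∈ Ico g₀ (g₀ + G), ∑ g' ∈ Ico g₀ (g₀ + G),
        e ((a * m ^ 2 + b * m * g + c * g ^ 2 + x * m + y * g) -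
          (a * m' ^ 2 + b * m' * g' + c * g' ^ 2 + x * m' + y * g')))]
    refine sum_congr rfl fun u _ => ?_
    have h3 : ∀ m' : ℤ, ∑ g ∈ Ico g₀ (g₀ + G), ∑ g' ∈ Ico g₀ (g₀ + G),
        e ((a * (m' + u : ℤ) ^ 2 + b * (m' + u : ℤ) * g + c * g ^ 2 + x * (m' + u : ℤ) + y * g) -
          (a * m' ^ 2 + b * m' * g' + c * g' ^ 2 + x * m' + y * g')) =
        ∑ v ∈ Icc (-(2 * G : ℤ)) (2 * G), ∑ g' ∈ Icc (max g₀ (g₀ - v)) (min (g₀ + G - 1) (g₀ + G - 1 - v)),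
        e (a * u ^ 2 + b * u * v + c * v ^ 2 + x * u + y * v) *
          (e ((2 * a * u + b * v) * m') * e ((b * u + 2 * c * v) * g')) := by
      intro m'
      rw [WEY_reindex g₀ G (fun g g' => e ((a * (m' + u : ℤ) ^ 2 + b * (m' + u : ℤ) * g + c * g ^ 2 +
        x * (m' + u : ℤ) + y * g) - (a * m' ^ 2 + b * m' * g' + c * g' ^ 2 + x * m' + y * g')))]
      refine sum_congr rfl fun v _ => sum_congr rfl fun g' _ => ?_
      rw [← E1_e_add, ← E1_e_add]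
      congr 1
      push_cast
      ring
    rw [sum_congr rfl fun m' _ => h3 m']
    rw [sum_comm]
    refine sum_congr rfl fun v _ => ?_
    rw [sum_mul_sum, mul_sum]
    refine sum_congr rfl fun m' _ => ?_
    rw [mul_sum]
  rw [h0, h1, h2]
  refine (norm_sum_le _ _).trans (sum_le_sum fun u _ => (norm_sum_le _ _).trans (sum_le_sum fun v _ => ?_))
  rw [norm_mul, E1_norm_e, one_mul, norm_mul]
  refine mul_le_mul (E1_geom M _ _ _ ?_) (E1_geom G _ _ _ ?_) (norm_nonneg _) (Pool.Agent.helper28.LT.WC_wt_nonneg _ _)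
  · have h5 : min (m₀ + M - 1) (m₀ + M - 1 - u) ≤ m₀ + M - 1 := min_le_left _ _
    have h6 : m₀ ≤ max m₀ (m₀ - u) := le_max_left _ _
    omega
  · have h5 : min (g₀ + G - 1) (g₀ + G - 1 - v) ≤ g₀ + G - 1 := min_le_left _ _
    have h6 : g₀ ≤ max g₀ (g₀ - v) := le_max_left _ _
    omega

/-- Weyl with congruences -/
theorem WEY_cong (m₀ g₀ : ℤ) (M G P : ℕ) (hP : 1 ≤ P) (r r' : ℤ) (a b c x y : ℝ) :
    ‖ESg m₀ g₀ M G P r r' a b c x y‖ ^ 2 ≤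
    ∑ u ∈ Icc (-(2 * M : ℤ)) (2 * M), ∑ v ∈ Icc (-(2 * G : ℤ)) (2 * G),
      Pool.Agent.helper3.FT.wt M (2 * a * u + b * v) * Pool.Agent.helper3.FT.wt G (b * u + 2 * c * v) := by
  set R := ∑ u ∈ Icc (-(2 * M : ℤ)) (2 * M), ∑ v ∈ Icc (-(2 * G : ℤ)) (2 * G),
      Pool.Agent.helper3.FT.wt M (2 * a * u + b * v) * Pool.Agent.helper3.FT.wt G (b * u + 2 * c * v) with hR
  have hR0 : 0 ≤ R := sum_nonneg fun u _ => sum_nonneg fun v _ =>
    mul_nonneg (Pool.Agent.helper28.LT.WC_wt_nonneg _ _) (Pool.Agent.helper28.LT.WC_wt_nonneg _ _)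
  have hS : ∀ x y : ℝ, ‖WEY_S m₀ g₀ M G a b c x y‖ ≤ √R := fun x y =>
    Real.le_sqrt_of_sq_le (WEY_weyl m₀ g₀ M G a b c x y)
  have hP0 : (P : ℝ) ≠ 0 := by positivity
  have hPc : (P : ℂ) ≠ 0 := by exact_mod_cast (by omega : P ≠ 0)
  have h1 : (P : ℂ) * P * ESg m₀ g₀ M G P r r' a b c x y =
      ∑ j ∈ range P, ∑ j' ∈ range P, e (-(r : ℝ) / P * j) * e (-(r' : ℝ) / P * j') *
        WEY_S m₀ g₀ M G a b c (x + (j : ℝ) / P) (y + (j' : ℝ) / P) := by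
    unfold ESg WEY_S
    rw [sum_filter, mul_sum]
    have h2 : ∀ m : ℤ, ∀ g : ℤ,
        ∑ j ∈ range P, ∑ j' ∈ range P, e (-(r : ℝ) / P * j) * e (-(r' : ℝ) / P * j') *
          e (a * m ^ 2 + b * m * g + c * g ^ 2 + (x + (j : ℝ) / P) * m + (y + (j' : ℝ) / P) * g) =
        (if (P : ℤ) ∣ m - r then (P : ℂ) else 0) * (if (P : ℤ) ∣ g - r' then (P : ℂ) else 0) *
          e (a * m ^ 2 + b * m * g + c * g ^ 2 + x * m + y * g) := by
      intro m g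
      rw [← Pool.Agent.helper28.LT.WC_ind P hP (m - r), ← Pool.Agent.helper28.LT.WC_ind P hP (g - r'),
        sum_mul_sum, sum_mul]
      refine sum_congr rfl fun j _ => ?_
      rw [sum_mul]
      refine sum_congr rfl fun j' _ => ?_
      rw [← E1_e_add, ← E1_e_add, ← E1_e_add, ← E1_e_add]
      congr 1
      push_cast
      field_simp
      ring
    have h3 : ∑ j ∈ range P, ∑ j' ∈ range P, e (-(r : ℝ) / P * j) * e (-(r' : ℝ) / P * j') *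
        (∑ m ∈ Ico m₀ (m₀ + M), ∑ g ∈ Ico g₀ (g₀ + G),
          e (a * m ^ 2 + b * m * g + c * g ^ 2 + (x + (j : ℝ) / P) * m + (y + (j' : ℝ) / P) * g)) =
        ∑ m ∈ Ico m₀ (m₀ + M), ∑ g ∈ Ico g₀ (g₀ + G), ∑ j ∈ range P, ∑ j' ∈ range P,
          e (-(r : ℝ) / P * j) * e (-(r' : ℝ) / P * j') *
          e (a * m ^ 2 + b * m * g + c * g ^ 2 + (x + (j : ℝ) / P) * m + (y + (j' : ℝ) / P) * g) := by
      simp_rw [mul_sum]
      rw [sum_congr rfl fun j _ => sum_comm]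
      rw [sum_comm]
      refine sum_congr rfl fun m _ => ?_
      rw [sum_congr rfl fun j _ => sum_comm]
      rw [sum_comm]
    rw [h3]
    refine sum_congr rfl fun m _ => ?_
    rw [sum_filter]
    split_ifs with hm
    · rw [mul_sum]
      refine sum_congr rfl fun g _ => ?_
      rw [h2 m g, if_pos hm]
      split_ifs with hg
      · ring
      · simp
    · rw [mul_zero]
      symm
      refine sum_eq_zero fun g _ => ?_
      rw [h2 m g, if_neg hm]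
      simp
  have h2 : (P : ℝ) * P * ‖ESg m₀ g₀ M G P r r' a b c x y‖ ≤ P * P * √R := by
    have h3 : (P : ℝ) * P * ‖ESg m₀ g₀ M G P r r' a b c x y‖ = ‖(P : ℂ) * P * ESg m₀ g₀ M G P r r' a b c x y‖ := by
      rw [norm_mul, norm_mul, Complex.norm_natCast]
    rw [h3, h1]
    calc ‖∑ j ∈ range P, ∑ j' ∈ range P, e (-(r : ℝ) / P * j) * e (-(r' : ℝ) / P * j') *
          WEY_S m₀ g₀ M G a b c (x + (j : ℝ) / P) (y + (j' : ℝ) / P)‖ ≤
        ∑ j ∈ range P, ∑ j' ∈ range P, √R := by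
          refine (norm_sum_le _ _).trans (sum_le_sum fun j _ => (norm_sum_le _ _).trans
            (sum_le_sum fun j' _ => ?_))
          rw [norm_mul, norm_mul, E1_norm_e, E1_norm_e, one_mul, one_mul]
          exact hS _ _
      _ = P * P * √R := by
          rw [sum_const, sum_const, card_range, nsmul_eq_mul, nsmul_eq_mul]
          ring
  have h4 : ‖ESg m₀ g₀ M G P r r' a b c x y‖ ≤ √R := by
    have : (0 : ℝ) < (P : ℝ) * P := by positivity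
    exact le_of_mul_le_mul_left h2 this
  calc ‖ESg m₀ g₀ M G P r r' a b c x y‖ ^ 2 ≤ (√R) ^ 2 := by gcongr
    _ = R := Real.sq_sqrt hR0

theorem WEY : WEY_stmt := by
  obtain ⟨C, hC, h⟩ := cells
  refine ⟨C + 1, by linarith, ?_⟩
  intro m₀ g₀ M G P r r' a b c x y hM hG hP
  have h1 := (WEY_cong m₀ g₀ M G P hP r r' a b c x y).trans (h M G hM hG (2 * a) b b (2 * c))
  refine h1.trans ?_
  have hM1 : (0 : ℝ) ≤ Real.log M := Real.log_natCast_nonneg M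
  have hG1 : (0 : ℝ) ≤ Real.log G := Real.log_natCast_nonneg G
  have e1 : ((Icc (-(4 * M : ℤ)) (4 * M) ×ˢ Icc (-(4 * G : ℤ)) (4 * G)).filter
        (fun p => nd (2 * a * p.1 + b * p.2) ≤ 1 / M ∧ nd (b * p.1 + 2 * c * p.2) ≤ 1 / G)).card =
      (nearPts M G a b c).card := by
    unfold nearPts
    congr 1
  rw [e1]
  gcongr
  linarith

end Pool.Agent.T5
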