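import Pool.Agent.helper94.T5.SpecP

set_option autoImplicit false

namespace Pool.Agent.T5P

open Finset

theorem PL_cast (p : ℕ) (x : ℤ) : ((x : ZMod (p ^ 2)) = 0) ↔ (p : ℤ) ^ 2 ∣ x := by
  rw [ZMod.intCast_zmod_eq_zero_iff_dvd]
  push_cast
  rfl

theorem PL_dv (p : ℕ) (hp : p.Prime) (x : ℤ) : dv p (x : ZMod (p ^ 2)) ↔ (p : ℤ) ∣ x := by
  unfold dv
  have h : (p : ZMod (p ^ 2)) * (x : ZMod (p ^ 2)) = (((p : ℤ) * x : ℤ) : ZMod (p ^ 2)) := by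
    push_cast
    rfl
  rw [h, PL_cast, pow_two]
  have hp0 : (p : ℤ) ≠ 0 := by exact_mod_cast hp.ne_zero
  exact mul_dvd_mul_iff_left hp0

theorem PL_c4 (x : ℤ) (c : ℤ) (hc : 0 ≤ c) (hc4 : c < 4) :
    ((x : ZMod (2 ^ 2)) = (c : ZMod (2 ^ 2))) ↔ x % 4 = c := by
  rw [ZMod.intCast_eq_intCast_iff]
  unfold Int.ModEq
  norm_num
  constructor
  · intro h
    omega
  · intro h
    omega

theorem PL_two (n Z L tr dis : ℤ) (hn : ¬ (2 : ℤ) ∣ n)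
    (h4 : dis * n ^ 2 = tr ^ 2 - 4 * Z ^ 2 * L) :
    nf 2 ((n ^ 2 * Z : ℤ) : ZMod (2 ^ 2)) ((n ^ 4 * L : ℤ) : ZMod (2 ^ 2))
      ((n ^ 4 * tr : ℤ) : ZMod (2 ^ 2)) ↔ NF 2 dis := by
  obtain ⟨j, hj⟩ : ∃ j : ℤ, n ^ 2 = 8 * j + 1 := by
    have h1 : n % 2 = 1 := by omega
    obtain ⟨a, ha⟩ : ∃ a : ℤ, n = 2 * a + 1 := ⟨n / 2, by omega⟩
    obtain ⟨b, hb⟩ : ∃ b : ℤ, a * (a + 1) = 2 * b := by
      obtain ⟨b, hb⟩ := Int.even_mul_succ_self a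
      exact ⟨b, by rw [hb]; ring⟩
    refine ⟨b, ?_⟩
    rw [ha]
    linear_combination 4 * hb
  have hn2 : ((n : ZMod (2 ^ 2))) ^ 2 = 1 := by
    have h := congrArg (fun t : ℤ => (t : ZMod (2 ^ 2))) hj
    push_cast at h
    rw [h]
    have h8 : (8 : ZMod (2 ^ 2)) = 0 := by decide
    rw [h8]
    ring
  have hz : ((n ^ 2 * Z : ℤ) : ZMod (2 ^ 2)) = (Z : ZMod (2 ^ 2)) := by
    push_cast
    rw [hn2, one_mul]
  have hl : ((n ^ 4 * L : ℤ) : ZMod (2 ^ 2)) = (L : ZMod (2 ^ 2)) := by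
    push_cast
    have : (n : ZMod (2 ^ 2)) ^ 4 = 1 := by
      calc (n : ZMod (2 ^ 2)) ^ 4 = ((n : ZMod (2 ^ 2)) ^ 2) ^ 2 := by ring
        _ = 1 := by rw [hn2]; ring
    rw [this, one_mul]
  have hs : ((n ^ 4 * tr : ℤ) : ZMod (2 ^ 2)) = (tr : ZMod (2 ^ 2)) := by
    push_cast
    have : (n : ZMod (2 ^ 2)) ^ 4 = 1 := by
      calc (n : ZMod (2 ^ 2)) ^ 4 = ((n : ZMod (2 ^ 2)) ^ 2) ^ 2 := by ring
        _ = 1 := by rw [hn2]; ring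
    rw [this, one_mul]
  rw [hz, hl, hs]
  unfold nf NF
  rw [if_pos rfl, if_pos rfl]
  obtain ⟨w, hw⟩ : ∃ w : ℤ, w = Z ^ 2 * L := ⟨_, rfl⟩
  have hw' : (Z : ZMod (2 ^ 2)) ^ 2 * (L : ZMod (2 ^ 2)) = (w : ZMod (2 ^ 2)) := by
    rw [hw]
    push_cast
    rfl
  rw [hw']
  have e0 : ∀ x : ℤ, ((x : ZMod (2 ^ 2)) = 0) ↔ x % 4 = 0 := by
    intro x
    have := PL_c4 x 0 (by norm_num) (by norm_num)
    rwa [Int.cast_zero] at this
  have e1 : ∀ x : ℤ, ((x : ZMod (2 ^ 2)) = 1) ↔ x % 4 = 1 := by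
    intro x
    have := PL_c4 x 1 (by norm_num) (by norm_num)
    rwa [Int.cast_one] at this
  have e2 : ∀ x : ℤ, ((x : ZMod (2 ^ 2)) = 2) ↔ x % 4 = 2 := by
    intro x
    have := PL_c4 x 2 (by norm_num) (by norm_num)
    rwa [Int.cast_ofNat] at this
  have e3 : ∀ x : ℤ, ((x : ZMod (2 ^ 2)) = 3) ↔ x % 4 = 3 := by
    intro x
    have := PL_c4 x 3 (by norm_num) (by norm_num)
    rwa [Int.cast_ofNat] at this
  rw [e0, e0, e1, e2, e3]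
  have hmain : 8 * (dis * j) + dis = tr ^ 2 - 4 * w := by
    have : dis * (8 * j + 1) = tr ^ 2 - 4 * w := by
      rw [← hj, h4, hw]
      ring
    linear_combination this
  rcases Int.even_or_odd tr with ⟨a, ha⟩ | ⟨a, ha⟩
  · obtain ⟨d, hd⟩ : ∃ d : ℤ, dis = 4 * d := by
      refine ⟨a ^ 2 - w - 2 * (dis * j), ?_⟩
      rw [ha] at hmain
      linear_combination hmain
    rw [hd] at hmain
    have hmain : 32 * (d * j) + 4 * d = tr ^ 2 - 4 * w := by linear_combination hmain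
    generalize d * j = dj at hmain
    rw [hd]
    rcases Int.even_or_odd a with ⟨t, ht⟩ | ⟨t, ht⟩
    · have h1 : tr ^ 2 = 16 * (t * t) := by
        rw [ha, ht]
        ring
      rw [h1] at hmain
      generalize t * t = tt at hmain
      omega
    · have h1 : tr ^ 2 = 16 * (t * t) + 16 * t + 4 := by
        rw [ha, ht]
        ring
      rw [h1] at hmain
      generalize t * t = tt at hmain
      omega
  · have h1 : tr ^ 2 = 4 * (a * a) + 4 * a + 1 := by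
      rw [ha]
      ring
    rw [h1] at hmain
    generalize dis * j = dj at hmain
    generalize a * a = aa at hmain
    omega

theorem PL_odd (p : ℕ) (hp : p.Prime) (h2 : p ≠ 2) (n Z L tr dis : ℤ) (hn : ¬ (p : ℤ) ∣ n)
    (h4 : dis * n ^ 2 = tr ^ 2 - 4 * Z ^ 2 * L) :
    nf p ((n ^ 2 * Z : ℤ) : ZMod (p ^ 2)) ((n ^ 4 * L : ℤ) : ZMod (p ^ 2))
      ((n ^ 4 * tr : ℤ) : ZMod (p ^ 2)) ↔ NF p dis := by
  unfold nf NF
  rw [if_neg h2, if_neg h2]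
  have h : (((n ^ 4 * tr : ℤ) : ZMod (p ^ 2)) ^ 2 =
      4 * ((n ^ 2 * Z : ℤ) : ZMod (p ^ 2)) ^ 2 * ((n ^ 4 * L : ℤ) : ZMod (p ^ 2))) ↔
      ((n ^ 10 * dis : ℤ) : ZMod (p ^ 2)) = 0 := by
    rw [← sub_eq_zero]
    have : ((n ^ 4 * tr : ℤ) : ZMod (p ^ 2)) ^ 2 -
      4 * ((n ^ 2 * Z : ℤ) : ZMod (p ^ 2)) ^ 2 * ((n ^ 4 * L : ℤ) : ZMod (p ^ 2)) =
      ((n ^ 10 * dis : ℤ) : ZMod (p ^ 2)) := by
      have h5 : n ^ 10 * dis = (n ^ 4 * tr) ^ 2 - 4 * (n ^ 2 * Z) ^ 2 * (n ^ 4 * L) := by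
        linear_combination n ^ 8 * h4
      rw [h5]
      push_cast
      ring
    rw [this]
  rw [h, PL_cast]
  have hpp : Prime (p : ℤ) := Nat.prime_iff_prime_int.mp hp
  have hc : IsCoprime ((p : ℤ) ^ 2) (n ^ 10) := by
    apply IsCoprime.pow
    exact (Prime.coprime_iff_not_dvd hpp).mpr hn
  constructor
  · intro h'
    exact hc.dvd_of_dvd_mul_left h'
  · intro h'
    exact Dvd.dvd.mul_left h' _

theorem PL : PL_stmt := by
  intro p hp n k m g Z L R tr dis hk h1 h2 h3 h4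
  have hpp : Prime (p : ℤ) := Nat.prime_iff_prime_int.mp hp
  have E1 : m ^ 2 + k * R = n ^ 2 * Z := by linear_combination h1
  have E2 : m * g + Z * k ^ 2 = n ^ 2 * L := by linear_combination h2
  have E3 : g * R - m * k * Z = n ^ 2 * tr := by
    have h : k * (g * R - m * k * Z) = k * (n ^ 2 * tr) := by
      linear_combination g * h1 - m * h2 - n ^ 2 * h3
    exact mul_left_cancel₀ hk h
  have hzz : zz p (k : ZMod (p ^ 2)) (m : ZMod (p ^ 2)) (R : ZMod (p ^ 2)) =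
      ((n ^ 2 * Z : ℤ) : ZMod (p ^ 2)) := by
    unfold zz
    rw [← E1]
    push_cast
    rfl
  have hll : ll p (n : ZMod (p ^ 2)) (k : ZMod (p ^ 2)) (m : ZMod (p ^ 2)) (g : ZMod (p ^ 2))
      (R : ZMod (p ^ 2)) = ((n ^ 4 * L : ℤ) : ZMod (p ^ 2)) := by
    unfold ll
    have : n ^ 4 * L = n ^ 2 * m * g + (m ^ 2 + k * R) * k ^ 2 := by
      rw [E1]
      linear_combination (-n ^ 2) * E2
    rw [this]
    push_cast
    rfl
  have hss : ss p (n : ZMod (p ^ 2)) (k : ZMod (p ^ 2)) (m : ZMod (p ^ 2)) (g : ZMod (p ^ 2))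
      (R : ZMod (p ^ 2)) = ((n ^ 4 * tr : ℤ) : ZMod (p ^ 2)) := by
    unfold ss
    have : n ^ 4 * tr = n ^ 2 * g * R - m * k * (m ^ 2 + k * R) := by
      rw [E1]
      linear_combination (-n ^ 2) * E3
    rw [this]
    push_cast
    rfl
  unfold fT Fp bad
  rw [hzz, hll, hss]
  by_cases hn : (p : ℤ) ∣ n
  · rw [if_pos hn, if_pos ((PL_dv p hp n).mpr hn)]
    have hiff : (¬ (p : ℤ) ∣ k ∧ ¬ (p : ℤ) ∣ g ∧ (p : ℤ) ∣ m ∧ ¬ (p : ℤ) ^ 2 ∣ m) ↔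
        (¬ dv p (k : ZMod (p ^ 2)) ∧ ¬ dv p (g : ZMod (p ^ 2)) ∧ dv p (m : ZMod (p ^ 2)) ∧
          (m : ZMod (p ^ 2)) ≠ 0) := by
      rw [PL_dv p hp, PL_dv p hp, PL_dv p hp, Ne, PL_cast]
    by_cases hc : (¬ (p : ℤ) ∣ k ∧ ¬ (p : ℤ) ∣ g ∧ (p : ℤ) ∣ m ∧ ¬ (p : ℤ) ^ 2 ∣ m)
    · rw [if_pos hc, if_pos (hiff.mp hc)]
    · rw [if_neg hc, if_neg (fun h => hc (hiff.mpr h))]
  · rw [if_neg hn, if_neg (fun h => hn ((PL_dv p hp n).mp h))]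
    have hZ : dv p ((n ^ 2 * Z : ℤ) : ZMod (p ^ 2)) ↔ (p : ℤ) ∣ Z := by
      rw [PL_dv p hp]
      constructor
      · intro h
        rcases hpp.dvd_or_dvd h with h' | h'
        · exact absurd (hpp.dvd_of_dvd_pow h') hn
        · exact h'
      · intro h
        exact Dvd.dvd.mul_left h _
    have hL : dv p ((n ^ 4 * L : ℤ) : ZMod (p ^ 2)) ↔ (p : ℤ) ∣ L := by
      rw [PL_dv p hp]
      constructor
      · intro h
        rcases hpp.dvd_or_dvd h with h' | h'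
        · exact absurd (hpp.dvd_of_dvd_pow h') hn
        · exact h'
      · intro h
        exact Dvd.dvd.mul_left h _
    have hN : nf p ((n ^ 2 * Z : ℤ) : ZMod (p ^ 2)) ((n ^ 4 * L : ℤ) : ZMod (p ^ 2))
        ((n ^ 4 * tr : ℤ) : ZMod (p ^ 2)) ↔ NF p dis := by
      by_cases h2' : p = 2
      · subst h2'
        exact PL_two n Z L tr dis (by exact_mod_cast hn) h4
      · exact PL_odd p hp h2' n Z L tr dis hn h4
    by_cases hb : ((p : ℤ) ∣ Z ∧ (p : ℤ) ∣ L) ∨ NF p dis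
    · rw [if_pos hb, if_pos (by rw [hZ, hL, hN]; exact hb)]
    · have hb' : ¬ ((dv p ((n ^ 2 * Z : ℤ) : ZMod (p ^ 2)) ∧
          dv p ((n ^ 4 * L : ℤ) : ZMod (p ^ 2))) ∨
          nf p ((n ^ 2 * Z : ℤ) : ZMod (p ^ 2)) ((n ^ 4 * L : ℤ) : ZMod (p ^ 2))
            ((n ^ 4 * tr : ℤ) : ZMod (p ^ 2))) := by
        rw [hZ, hL, hN]
        exact hb
      rw [if_neg hb]
      by_cases hz : (p : ℤ) ∣ Z
      · rw [if_pos hz, if_neg hb', if_pos (hZ.mpr hz)]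
      · rw [if_neg hz, if_neg hb', if_neg (fun h => hz (hZ.mp h))]

end Pool.Agent.T5P
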