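import Pool.Agent.helper8.T5.SpecU

set_option autoImplicit false

namespace Pool.Agent.T5

open Finset NumberField Pool.Agent.helper3.FT Pool.Agent.helper47.RA

theorem UM_fin (K : Type) [Field K] [NumberField K] (Y : ℝ) : (IA K Y).Finite := by
  apply (Ideal.finite_setOfPred_absNorm_le (S := 𝓞 K) ⌊Y⌋₊).subset
  intro a ha
  have h := ha.2.2.2.2.2
  exact Nat.le_floor h

theorem UM_incl (hUFX : UFX_stmt) (hUZC : UZC_stmt) (K : Type) [Field K] [NumberField K] (Q : QF K)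
    (hQ : Q.D < 0) (Y B : ℝ) :
    EX Q Y B ⊆ ({a ∈ IA K Y | ((zz Q a : ℕ) : ℝ) ^ 2 ≤ B} : Set (Ideal (𝓞 K))) ∪
      ({a ∈ IA K Y | ∃ F : Full Q, F.a = a ∧ 0 < F.Λ ∧ (F.Λ : ℝ) ≤ B ∧ Q.Y F.γ = 0} :
        Set (Ideal (𝓞 K))) ∪
      ({a ∈ IA K Y | ∃ F : Full Q, F.a = a ∧ 0 < F.Λ ∧ (F.Λ : ℝ) ≤ B ∧ 0 < F.Z ∧ Q.Y F.β ≠ 0 ∧
        Q.Y F.γ ≠ 0} : Set (Ideal (𝓞 K))) := by
  intro a ha
  obtain ⟨haI, hα⟩ := ha
  obtain ⟨F, hFa, hΛ, hΛB, hZ, hZ0⟩ := hUFX K Q hQ a haI.1 haI.2.1 haI.2.2.1 B hα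
  by_cases hβ : Q.Y F.β = 0
  · left
    left
    refine ⟨haI, ?_⟩
    have h := hUZC K Q F hβ
    rw [abs_of_pos hΛ, hFa] at h
    have h' : ((zz Q a : ℕ) : ℝ) ^ 2 ≤ (F.Λ : ℝ) := by exact_mod_cast h
    exact h'.trans hΛB
  · by_cases hγ : Q.Y F.γ = 0
    · left
      right
      exact ⟨haI, F, hFa, hΛ, hΛB, hγ⟩
    · right
      exact ⟨haI, F, hFa, hΛ, hΛB, hZ0, hβ, hγ⟩

theorem UM_card (hUFX : UFX_stmt) (hUZC : UZC_stmt) (K : Type) [Field K] [NumberField K] (Q : QF K)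
    (hQ : Q.D < 0) (Y B : ℝ) :
    ((EX Q Y B).ncard : ℝ) ≤
      (({a ∈ IA K Y | ((zz Q a : ℕ) : ℝ) ^ 2 ≤ B} : Set (Ideal (𝓞 K))).ncard : ℝ) +
      (({a ∈ IA K Y | ∃ F : Full Q, F.a = a ∧ 0 < F.Λ ∧ (F.Λ : ℝ) ≤ B ∧ Q.Y F.γ = 0} :
        Set (Ideal (𝓞 K))).ncard : ℝ) +
      (({a ∈ IA K Y | ∃ F : Full Q, F.a = a ∧ 0 < F.Λ ∧ (F.Λ : ℝ) ≤ B ∧ 0 < F.Z ∧ Q.Y F.β ≠ 0 ∧
        Q.Y F.γ ≠ 0} : Set (Ideal (𝓞 K))).ncard : ℝ) := by
  have hfin := UM_fin K Y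
  have h1 := Set.ncard_le_ncard (UM_incl hUFX hUZC K Q hQ Y B)
    (((hfin.subset (Set.sep_subset _ _)).union (hfin.subset (Set.sep_subset _ _))).union
      (hfin.subset (Set.sep_subset _ _)))
  have h2 := h1.trans (Set.ncard_union_le _ _)
  have h3 := h2.trans (Nat.add_le_add_right (Set.ncard_union_le _ _) _)
  exact_mod_cast h3

theorem UM_num (N Y B δ : ℝ) (hδ : 0 < δ) (hδ1 : δ ≤ 1 / 10) (hN : 1 ≤ N)
    (hY : N ^ (0.38 : ℝ) ≤ Y) (hY2 : Y ≤ N ^ (1 / 2 - δ)) (hB : 1 ≤ B)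
    (hB2 : B ≤ N ^ (1 / 2 + δ / 100)) :
    √B * √N ≤ Y * N ^ (0.4 : ℝ) ∧ B * (Y * √Y) / √N ≤ Y * N ^ (0.4 : ℝ) ∧
      √Y * √N ≤ Y * N ^ (0.4 : ℝ) ∧ Y * (B * √B) / √N ≤ Y * N ^ (0.4 : ℝ) := by
  have hN0 : 0 < N := by linarith
  have hY1 : 1 ≤ Y := (Real.one_le_rpow hN (by norm_num)).trans hY
  have hB' : B ≤ N ^ (0.501 : ℝ) := hB2.trans
    (Real.rpow_le_rpow_of_exponent_le hN (by linarith))
  have hY' : Y ≤ N ^ (0.5 : ℝ) := hY2.trans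
    (Real.rpow_le_rpow_of_exponent_le hN (by linarith))
  have hsB : √B ≤ N ^ (0.2505 : ℝ) := by
    rw [Real.sqrt_le_left (by positivity)]
    calc B ≤ N ^ (0.501 : ℝ) := hB'
      _ = (N ^ (0.2505 : ℝ)) ^ 2 := by
        rw [← Real.rpow_natCast, ← Real.rpow_mul hN0.le]
        norm_num
  have hsY : √Y ≤ N ^ (0.25 : ℝ) := by
    rw [Real.sqrt_le_left (by positivity)]
    calc Y ≤ N ^ (0.5 : ℝ) := hY'
      _ = (N ^ (0.25 : ℝ)) ^ 2 := by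
        rw [← Real.rpow_natCast, ← Real.rpow_mul hN0.le]
        norm_num
  have hsY2 : N ^ (0.19 : ℝ) ≤ √Y := by
    apply Real.le_sqrt_of_sq_le
    calc (N ^ (0.19 : ℝ)) ^ 2 = N ^ (0.38 : ℝ) := by
          rw [← Real.rpow_natCast, ← Real.rpow_mul hN0.le]
          norm_num
      _ ≤ Y := hY
  have hsN : √N = N ^ (0.5 : ℝ) := by
    rw [Real.sqrt_eq_rpow]
    norm_num
  have hP : 0 < N ^ (0.4 : ℝ) := Real.rpow_pos_of_pos hN0 _
  have hYY : √Y * √Y = Y := Real.mul_self_sqrt (by linarith)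
  have hsY0 : 0 < √Y := Real.sqrt_pos.mpr (by linarith)
  have hN5 : 0 < N ^ (0.5 : ℝ) := Real.rpow_pos_of_pos hN0 _
  refine ⟨?_, ?_, ?_, ?_⟩
  · calc √B * √N ≤ N ^ (0.2505 : ℝ) * N ^ (0.5 : ℝ) := by
          rw [hsN]
          exact mul_le_mul_of_nonneg_right hsB hN5.le
      _ = N ^ (0.7505 : ℝ) := by
          rw [← Real.rpow_add hN0]
          norm_num
      _ ≤ N ^ (0.78 : ℝ) := Real.rpow_le_rpow_of_exponent_le hN (by norm_num)
      _ = N ^ (0.38 : ℝ) * N ^ (0.4 : ℝ) := by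
          rw [← Real.rpow_add hN0]
          norm_num
      _ ≤ Y * N ^ (0.4 : ℝ) := mul_le_mul_of_nonneg_right hY hP.le
  · rw [hsN, div_le_iff₀ hN5]
    calc B * (Y * √Y) ≤ N ^ (0.501 : ℝ) * (Y * N ^ (0.25 : ℝ)) := by
          apply mul_le_mul hB' _ (by positivity) (by positivity)
          exact mul_le_mul_of_nonneg_left hsY (by linarith)
      _ = Y * N ^ (0.751 : ℝ) := by
          have : N ^ (0.751 : ℝ) = N ^ (0.501 : ℝ) * N ^ (0.25 : ℝ) := by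
            rw [← Real.rpow_add hN0]
            norm_num
          rw [this]
          ring
      _ ≤ Y * N ^ (0.9 : ℝ) := by
          apply mul_le_mul_of_nonneg_left _ (by linarith)
          exact Real.rpow_le_rpow_of_exponent_le hN (by norm_num)
      _ = Y * N ^ (0.4 : ℝ) * N ^ (0.5 : ℝ) := by
          have : N ^ (0.9 : ℝ) = N ^ (0.4 : ℝ) * N ^ (0.5 : ℝ) := by
            rw [← Real.rpow_add hN0]
            norm_num
          rw [this]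
          ring
  · have h1 : √N ≤ √Y * N ^ (0.4 : ℝ) := by
      rw [hsN]
      calc N ^ (0.5 : ℝ) ≤ N ^ (0.59 : ℝ) := Real.rpow_le_rpow_of_exponent_le hN (by norm_num)
        _ = N ^ (0.19 : ℝ) * N ^ (0.4 : ℝ) := by
          rw [← Real.rpow_add hN0]
          norm_num
        _ ≤ √Y * N ^ (0.4 : ℝ) := mul_le_mul_of_nonneg_right hsY2 hP.le
    calc √Y * √N ≤ √Y * (√Y * N ^ (0.4 : ℝ)) := mul_le_mul_of_nonneg_left h1 hsY0.le
      _ = Y * N ^ (0.4 : ℝ) := by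
          rw [← mul_assoc, hYY]
  · rw [hsN, div_le_iff₀ hN5]
    calc Y * (B * √B) ≤ Y * (N ^ (0.501 : ℝ) * N ^ (0.2505 : ℝ)) := by
          apply mul_le_mul_of_nonneg_left _ (by linarith)
          exact mul_le_mul hB' hsB (Real.sqrt_nonneg _) (by positivity)
      _ = Y * N ^ (0.7515 : ℝ) := by
          rw [← Real.rpow_add hN0]
          norm_num
      _ ≤ Y * N ^ (0.9 : ℝ) := by
          apply mul_le_mul_of_nonneg_left _ (by linarith)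
          exact Real.rpow_le_rpow_of_exponent_le hN (by norm_num)
      _ = Y * N ^ (0.4 : ℝ) * N ^ (0.5 : ℝ) := by
          have : N ^ (0.9 : ℝ) = N ^ (0.4 : ℝ) * N ^ (0.5 : ℝ) := by
            rw [← Real.rpow_add hN0]
            norm_num
          rw [this]
          ring

theorem UM (hUFX : UFX_stmt) (hUZC : UZC_stmt) (hUZ1 : UZ1_stmt) (hUZ2 : UZ2_stmt)
    (hUMN : UMN_stmt) : UM_stmt := by
  intro δ hδ hδ1
  obtain ⟨c₁, hc₁, hM⟩ := hUMN δ hδ hδ1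
  refine ⟨min c₁ (1 / 10), lt_min hc₁ (by norm_num), ?_⟩
  intro ε hε
  obtain ⟨η, hη⟩ : ∃ η : ℝ, η = ε / 4 := ⟨_, rfl⟩
  have hη0 : 0 < η := by rw [hη]; positivity
  obtain ⟨C₁, hC₁, H1⟩ := hM ε hε
  obtain ⟨C₂, hC₂, H2⟩ := hUZ1 η hη0
  obtain ⟨C₃, hC₃, H3⟩ := hUZ2 η hη0
  refine ⟨C₁ + 2 * C₂ + C₃ * (2 + 1 / η), ?_, ?_⟩
  · have : 0 < C₃ * (2 + 1 / η) := by positivity
    linarith
  intro N Y B hN hY hY2 hB hB2 s Φ hs
  have hN0 : 0 < N := by linarith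
  have hY1 : 1 ≤ Y := (Real.one_le_rpow hN (by norm_num)).trans hY
  obtain ⟨n1, n2, n3, n4⟩ := UM_num N Y B δ hδ hδ1 hN hY hY2 hB hB2
  have hsum : (∑ D : s, ((EX (Φ D).Q Y B).ncard : ℝ)) ≤
      (∑ D : s, (({a ∈ IA (Φ D).K Y | ((zz (Φ D).Q a : ℕ) : ℝ) ^ 2 ≤ B} :
        Set (Ideal (𝓞 (Φ D).K))).ncard : ℝ)) +
      (∑ D : s, (({a ∈ IA (Φ D).K Y | ∃ F : Full (Φ D).Q, F.a = a ∧ 0 < F.Λ ∧ (F.Λ : ℝ) ≤ B ∧
        (Φ D).Q.Y F.γ = 0} : Set (Ideal (𝓞 (Φ D).K))).ncard : ℝ)) +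
      (∑ D : s, (({a ∈ IA (Φ D).K Y | ∃ F : Full (Φ D).Q, F.a = a ∧ 0 < F.Λ ∧ (F.Λ : ℝ) ≤ B ∧
        0 < F.Z ∧ (Φ D).Q.Y F.β ≠ 0 ∧ (Φ D).Q.Y F.γ ≠ 0} :
        Set (Ideal (𝓞 (Φ D).K))).ncard : ℝ)) := by
    rw [← Finset.sum_add_distrib, ← Finset.sum_add_distrib]
    apply Finset.sum_le_sum
    intro D _
    apply UM_card hUFX hUZC
    rw [(Φ D).hD]
    have h := (hs D.1 D.2).1
    have h' : ((D.1 : ℤ) : ℝ) < 0 := by linarith
    exact_mod_cast h'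
  have hN2 : N ^ (1 / 2 + δ / 100) ≤ N := by
    calc N ^ (1 / 2 + δ / 100) ≤ N ^ (1 : ℝ) :=
          Real.rpow_le_rpow_of_exponent_le hN (by linarith)
      _ = N := Real.rpow_one N
  have hYN : Y ≤ N := by
    calc Y ≤ N ^ (1 / 2 - δ) := hY2
      _ ≤ N ^ (1 : ℝ) := Real.rpow_le_rpow_of_exponent_le hN (by linarith)
      _ = N := Real.rpow_one N
  have hBN : B ≤ N := hB2.trans hN2
  obtain ⟨P, hP⟩ : ∃ P : ℝ, P = N ^ (0.4 : ℝ) := ⟨_, rfl⟩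
  have hP0 : 0 < P := by rw [hP]; exact Real.rpow_pos_of_pos hN0 _
  obtain ⟨M, hMd⟩ : ∃ M : ℝ, M = N ^ (1 / 2 - min c₁ (1 / 10)) := ⟨_, rfl⟩
  have hM0 : 0 < M := by rw [hMd]; exact Real.rpow_pos_of_pos hN0 _
  have hPM : P ≤ M := by
    rw [hP, hMd]
    apply Real.rpow_le_rpow_of_exponent_le hN
    have := min_le_right c₁ (1 / 10)
    linarith
  have hM1 : N ^ (1 / 2 - c₁) ≤ M := by
    rw [hMd]
    apply Real.rpow_le_rpow_of_exponent_le hN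
    have := min_le_left c₁ (1 / 10)
    linarith
  obtain ⟨E, hE⟩ : ∃ E : ℝ, E = N ^ η := ⟨_, rfl⟩
  have hE1 : 1 ≤ E := by rw [hE]; exact Real.one_le_rpow hN hη0.le
  have hYE : Y ^ η ≤ E := by
    rw [hE]
    exact Real.rpow_le_rpow (by linarith) hYN hη0.le
  have hBE : B ^ η ≤ E := by
    rw [hE]
    exact Real.rpow_le_rpow (by linarith) hBN hη0.le
  have hEE : E * E ≤ N ^ ε := by
    rw [hE, ← Real.rpow_add hN0]
    apply Real.rpow_le_rpow_of_exponent_le hN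
    rw [hη]
    linarith
  have hE2 : E ≤ N ^ ε := by
    calc E = E * 1 := by ring
      _ ≤ E * E := mul_le_mul_of_nonneg_left hE1 (by linarith)
      _ ≤ N ^ ε := hEE
  have hlog : Real.log B ≤ E / η := by
    calc Real.log B ≤ B ^ η / η := Real.log_le_rpow_div (by linarith) hη0
      _ ≤ E / η := div_le_div_of_nonneg_right hBE hη0.le
  have hNε : 0 < N ^ ε := Real.rpow_pos_of_pos hN0 _
  have hYP : Y * P ≤ Y * B + Y * M := by
    have : Y * P ≤ Y * M := mul_le_mul_of_nonneg_left hPM (by linarith)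
    have : 0 ≤ Y * B := by positivity
    linarith
  have hYP0 : 0 < Y * P := by positivity
  rw [← hP] at n1 n2 n3 n4
  have S1 := H2 N Y B hN hY1 hB s Φ hs
  have S2 := H3 N Y B hN hY1 hB s Φ hs
  have S3 := H1 N Y B hN hY hY2 hB hB2 s Φ hs
  rw [← hMd]
  have T1 : C₂ * Y ^ η * (√B * √N + B * (Y * √Y) / √N) ≤
      2 * C₂ * N ^ ε * (Y * B + Y * M) := by
    calc C₂ * Y ^ η * (√B * √N + B * (Y * √Y) / √N) ≤ C₂ * N ^ ε * (Y * P + Y * P) := by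
          apply mul_le_mul _ (add_le_add n1 n2) (by positivity) (by positivity)
          exact mul_le_mul_of_nonneg_left (hYE.trans hE2) (by linarith)
      _ = 2 * C₂ * N ^ ε * (Y * P) := by ring
      _ ≤ 2 * C₂ * N ^ ε * (Y * B + Y * M) := mul_le_mul_of_nonneg_left hYP (by positivity)
  have T2 : C₃ * B ^ η * (√Y * √N * (1 + Real.log B) + Y * (B * √B) / √N) ≤
      C₃ * (2 + 1 / η) * N ^ ε * (Y * B + Y * M) := by
    have hl0 : 0 ≤ Real.log B := Real.log_nonneg hB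
    have a1 : √Y * √N * (1 + Real.log B) + Y * (B * √B) / √N ≤ (Y * P) * (2 + Real.log B) := by
      have : √Y * √N * (1 + Real.log B) ≤ (Y * P) * (1 + Real.log B) :=
        mul_le_mul_of_nonneg_right n3 (by linarith)
      linarith
    have a2 : 2 + Real.log B ≤ (2 + 1 / η) * E := by
      have : (2 + 1 / η) * E = 2 * E + E / η := by ring
      rw [this]
      linarith
    calc C₃ * B ^ η * (√Y * √N * (1 + Real.log B) + Y * (B * √B) / √N)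
        ≤ C₃ * E * ((Y * P) * ((2 + 1 / η) * E)) := by
          apply mul_le_mul
          · exact mul_le_mul_of_nonneg_left hBE (by linarith)
          · exact a1.trans (mul_le_mul_of_nonneg_left a2 hYP0.le)
          · positivity
          · positivity
      _ = C₃ * (2 + 1 / η) * (E * E) * (Y * P) := by ring
      _ ≤ C₃ * (2 + 1 / η) * N ^ ε * (Y * B + Y * M) := by
          apply mul_le_mul _ hYP hYP0.le (by positivity)
          exact mul_le_mul_of_nonneg_left hEE (by positivity)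
  have T3 : C₁ * N ^ ε * (Y * B + Y * N ^ (1 / 2 - c₁)) ≤ C₁ * N ^ ε * (Y * B + Y * M) := by
    apply mul_le_mul_of_nonneg_left _ (by positivity)
    have : Y * N ^ (1 / 2 - c₁) ≤ Y * M := mul_le_mul_of_nonneg_left hM1 (by linarith)
    linarith
  calc (∑ D : s, ((EX (Φ D).Q Y B).ncard : ℝ)) ≤ _ := hsum
    _ ≤ 2 * C₂ * N ^ ε * (Y * B + Y * M) + C₃ * (2 + 1 / η) * N ^ ε * (Y * B + Y * M) +
        C₁ * N ^ ε * (Y * B + Y * M) :=
      add_le_add (add_le_add (S1.trans T1) (S2.trans T2)) (S3.trans T3)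
    _ = (C₁ + 2 * C₂ + C₃ * (2 + 1 / η)) * N ^ ε * (Y * B + Y * M) := by ring

end Pool.Agent.T5
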